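import Pool.Agent.N669.CQ.Stm

set_option autoImplicit false

/-! Project CQ, part DEG: degenerate quadrilaterals are triangles (helper196). -/

namespace Pool.Agent.N196.CQ

open Pool.Agent.N669.CQ

theorem t_DEG : S_DEG := by
  rintro K ⟨a1, a2⟩ ⟨b1, b2⟩ ⟨c1, c2⟩ ⟨d1, d2⟩ h1 h2 _ _ hL hA
  simp only [ar, cr, Prod.mk_sub_mk] at h1 h2 hA ⊢
  have e1 : (c1 - a1) * (d2 - b2) - (c2 - a2) * (d1 - b1) =
      (c1 - a1) * (d2 - a2) - (c2 - a2) * (d1 - a1) := by linear_combination h2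
  rw [e1] at hA ⊢
  have hpos : 0 < (c1 - a1) * (d2 - a2) - (c2 - a2) * (d1 - a1) := by linarith
  refine ⟨hpos, rfl, ?_⟩
  have hw : 0 < (c1 - a1) ^ 2 + (c2 - a2) ^ 2 := by
    rcases eq_or_ne (c1 - a1) 0 with h | h
    · rcases eq_or_ne (c2 - a2) 0 with h' | h'
      · rw [h, h'] at hpos
        norm_num at hpos
      · positivity
    · positivity
  obtain ⟨τ, hτ⟩ : ∃ τ : ℝ, τ * ((c1 - a1) ^ 2 + (c2 - a2) ^ 2) =
      (b1 - a1) * (c1 - a1) + (b2 - a2) * (c2 - a2) :=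
    ⟨((b1 - a1) * (c1 - a1) + (b2 - a2) * (c2 - a2)) / ((c1 - a1) ^ 2 + (c2 - a2) ^ 2),
      div_mul_cancel₀ _ hw.ne'⟩
  have hb1 : b1 - a1 = τ * (c1 - a1) := by
    have : (b1 - a1 - τ * (c1 - a1)) * ((c1 - a1) ^ 2 + (c2 - a2) ^ 2) = 0 := by
      linear_combination (-(c1 - a1)) * hτ + (c2 - a2) * h2
    rcases mul_eq_zero.1 this with h | h
    · linarith
    · exact absurd h hw.ne'
  have hb2 : b2 - a2 = τ * (c2 - a2) := by
    have : (b2 - a2 - τ * (c2 - a2)) * ((c1 - a1) ^ 2 + (c2 - a2) ^ 2) = 0 := by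
      linear_combination (-(c2 - a2)) * hτ - (c1 - a1) * h2
    rcases mul_eq_zero.1 this with h | h
    · linarith
    · exact absurd h hw.ne'
  have hτ0 : 0 ≤ τ := by
    by_contra hneg
    push Not at hneg
    rw [hb1, hb2] at h1
    have : (a1 - d1) * (τ * (c2 - a2)) - (a2 - d2) * (τ * (c1 - a1)) =
        τ * ((c1 - a1) * (d2 - a2) - (c2 - a2) * (d1 - a1)) := by ring
    rw [this] at h1
    have := mul_neg_of_neg_of_pos hneg hpos
    linarith
  rcases hτ0.eq_or_lt with h0 | h0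
  · rw [← h0, zero_mul] at hb1 hb2
    have e2 : b1 = a1 := by linarith
    have e3 : b2 = a2 := by linarith
    have := hL.bc
    rw [e2, e3] at this
    exact this
  · intro k hk
    have h3 := hL.ab k hk
    obtain ⟨k1, k2⟩ := k
    simp only [cr, Prod.mk_sub_mk] at h3 ⊢
    rw [hb1, hb2] at h3
    have : τ * (c1 - a1) * (k2 - a2) - τ * (c2 - a2) * (k1 - a1) =
        τ * ((c1 - a1) * (k2 - a2) - (c2 - a2) * (k1 - a1)) := by ring
    rw [this] at h3
    exact nonneg_of_mul_nonneg_right h3 h0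

end Pool.Agent.N196.CQ
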